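import Pool.Agent.H68.GC.Final

/-!
# MP_746271_co: the greedy cop with random tie-breaking against a drunk robber

The greedy cop with random tie-breaking does NOT guarantee expected capture time `n + o(n)` against
the drunk robber, and not even `O(n)`: the ratio `E[T] / n` is unbounded over connected graphs.

The definitions (`greedySet`, `copMove`, `robberMove`, `playRound`, `law`, `expectedCaptureTime`)
are in `Pool/Agent/H68/GC/Defs.lean`.

## The graphs (`Graph.lean`)

* A *cyclic ladder*: vertices `lad p j s` with `p` in `ZMod (4 u)`, `j < M` and `s` a bit.
  `lad p j s` is adjacent to `lad (p + 1) j s`, and at every position `p` the two sides `s = 0, 1`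
  are joined completely (a `K_{M,M}`).  The ladder has `8 u M` vertices.
* A *path of blobs*: independent sets `blob q` of `W q` vertices for `q = 0, ..., L`, where
  `L = 16 K u`; consecutive blobs are joined completely.  The robber starts in `blob 0`.
* *Sticks*: all vertices of `blob q` are joined by a path with `B - b q - 1` inner vertices to all
  the vertices of the ladder at the position `b q = u + q / 4` (mod `4 u`) on the side `q mod 2`.

Suppose that the robber is in `blob q` and the cop on the ladder, at the position `x` (an integer
taken mod `4 u`) with `b q + 2 - 2 u ≤ x ≤ b q - 2`.  Then her distance to him is `B - x` if her side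
is `q mod 2` and `B - x + 1` otherwise (`Dist.lean`).  On the right side she has to go
forward to `x + 1`.  On the wrong side she has `M + 1` equally good moves: one step forward, or a
crossing to one of the `M` vertices of the other side at the same position.  The robber changes the
parity of `q` with every step along the blobs, so that after a crossing she is on the wrong side
again and has made no progress.  She therefore advances (by two positions) only once in about
`M + 1` rounds.

The sizes `W q` give the robber a drift: they grow geometrically (by the factor `Λ`) from one block
of `J` consecutive blobs to the next, and each block starts with two heavy blobs, between which he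
spends most of the time.  He needs about `M / 8` rounds on average to go from `q` to `q + 1`, so that
the window of positions in which the cop has to be moves at the same speed as the cop.  This goes on
until the robber reaches the end of the path of blobs: the cop runs `K` times around the cyclic
ladder, and this takes about `M L / 8 = 2 K M u` rounds, while the number `n` of vertices is about
`8 M u`.  The proof gives `E[T] ≥ K n / 33`; here `n` depends on `K` in a complicated way.

## The proof

`Dist.lean` computes the distances by exhibiting `1`-Lipschitz functions, `Greedy.lean` and
`Nbrs.lean` give the moves of the cop and of the robber, `Lower.lean` reduces a lower bound for the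
expected capture time to a nonnegative function `g` on the pairs of positions which vanishes at
capture and satisfies `g ≤ 1 + (expected value of g after one round)`, `Step.lean` and `Chain.lean`
construct `g` from three potentials of the robber's birth and death chain (`hh`: half of the expected
time to reach the end, `HH`: expected progress of the cop, `UU`: its variance), and `Params.lean`
and `Final.lean` contain the numerical estimates.
-/

open Filter Asymptotics
open scoped ENNReal

namespace Pool.Agent.Results.MP_746271_co.GreedyUnbounded

open Pool.Agent.H68.GC

/-- For every constant `C` there are connected graphs with arbitrarily many vertices, together with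
initial positions of cop and robber, for which the expected capture time of the greedy cop with
random tie-breaking against the drunk robber is more than `C` times the number of vertices. -/
theorem result : ∀ C n₀ : ℕ, ∃ (V : Type) (_ : Fintype V) (G : SimpleGraph V),
    G.Connected ∧ n₀ ≤ Fintype.card V ∧
      ∃ c r : V, (C : ℝ≥0∞) * (Fintype.card V : ℝ≥0∞) < expectedCaptureTime G c r :=
  unbounded

/-- The literal negation of the question (a corollary). -/
theorem not_little_o : ¬ ∃ f : ℕ → ℝ, f =o[atTop] (fun n => (n : ℝ)) ∧
    ∀ (V : Type) [Fintype V] (G : SimpleGraph V), G.Connected → ∀ c r : V,
      expectedCaptureTime G c r ≤ ENNReal.ofReal (Fintype.card V + f (Fintype.card V)) := by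
  rintro ⟨f, hf, h⟩
  have h1 := hf.def (c := 1) one_pos
  rw [eventually_atTop] at h1
  obtain ⟨n₀, h1⟩ := h1
  obtain ⟨V, _, G, hG, hn, c, r, hlt⟩ := result 2 n₀
  have h2 := h1 _ hn
  have h3 := h V G hG c r
  rw [one_mul, Real.norm_eq_abs, Real.norm_of_nonneg (by positivity)] at h2
  have h4 : (Fintype.card V : ℝ) + f (Fintype.card V) ≤ ((2 * Fintype.card V : ℕ) : ℝ) := by
    push_cast
    linarith [le_abs_self (f (Fintype.card V))]
  have h5 := ENNReal.ofReal_le_ofReal h4
  rw [ENNReal.ofReal_natCast] at h5
  push_cast at h5 hlt
  exact absurd (hlt.trans_le (h3.trans h5)) (lt_irrefl _)

end Pool.Agent.Results.MP_746271_co.GreedyUnbounded
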